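import Pool.Agent.H82.C3.Stm
import Pool.Graph.R_seed8.H510R2.Div

/-!
Part R3 of project C3: the number of `(d, r, n, f)`, `d ≤ Y`, `r² ≤ d`, `n² + d f² = 4 r³`.
-/

set_option autoImplicit false

namespace Pool.Agent.H4.C3

open Finset Pool.Agent.H82.C3

/-- numbers in a residue class -/
lemma cls_card (B h : ℕ) (S : Finset ℕ) (hS : ∀ n ∈ S, n ≤ B)
    (hc : ∀ n ∈ S, ∀ n' ∈ S, (h : ℤ) ∣ (n : ℤ) - n') : S.card ≤ B / h + 1 := by
  have h0 : S.card ≤ (range (B / h + 1)).card := by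
    apply Finset.card_le_card_of_injOn (fun n => n / h)
    · intro n hn
      simp only [coe_range, Set.mem_Iio]
      have := Nat.div_le_div_right (c := h) (hS n hn)
      omega
    · intro n hn n' hn' heq
      simp only at heq
      have h1 : n ≡ n' [MOD h] := Int.natCast_modEq_iff.mp (Int.modEq_iff_dvd.mpr (hc n' hn' n hn))
      have h2 : n % h = n' % h := h1
      rw [← Nat.div_add_mod n h, ← Nat.div_add_mod n' h, heq, h2]
  simpa using h0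

/-- `n² ≡ c` modulo `f²` -/
lemma sq_cong (B f : ℕ) (hf : 1 ≤ f) (c : ℤ) :
    ((range (B + 1)).filter (fun n : ℕ => (f : ℤ) ^ 2 ∣ c - (n : ℤ) ^ 2)).card ≤
      (f ^ 2).divisors.card * (B / f + 1) := by
  classical
  set S := (range (B + 1)).filter (fun n : ℕ => (f : ℤ) ^ 2 ∣ c - (n : ℤ) ^ 2) with hS
  rcases S.eq_empty_or_nonempty with h0 | ⟨n0, hn0⟩
  · rw [h0]; simp
  have hsub : S ⊆ (f ^ 2).divisors.biUnion (fun g => S.filter (fun n : ℕ =>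
      (g : ℤ) ∣ (n : ℤ) - n0 ∧ ((f ^ 2 / g : ℕ) : ℤ) ∣ (n : ℤ) + n0)) := by
    intro n hn
    have h1 : (f : ℤ) ^ 2 ∣ c - (n : ℤ) ^ 2 := (Finset.mem_filter.mp hn).2
    have h2 : (f : ℤ) ^ 2 ∣ c - (n0 : ℤ) ^ 2 := (Finset.mem_filter.mp hn0).2
    have h3 : (f : ℤ) ^ 2 ∣ ((n : ℤ) - n0) * ((n : ℤ) + n0) := by
      have e : ((n : ℤ) - n0) * ((n : ℤ) + n0) = (c - (n0 : ℤ) ^ 2) - (c - (n : ℤ) ^ 2) := by ring
      rw [e]
      exact dvd_sub h2 h1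
    set a := ((n : ℤ) - n0).natAbs with ha
    have h4 : f ^ 2 ∣ a * (n + n0) := by
      have := Int.natAbs_dvd_natAbs.mpr h3
      rw [Int.natAbs_mul, Int.natAbs_pow, Int.natAbs_natCast] at this
      have h5 : ((n : ℤ) + n0).natAbs = n + n0 := by
        rw [← Nat.cast_add, Int.natAbs_natCast]
      rwa [h5] at this
    have hf2 : 0 < f ^ 2 := by positivity
    have hg : Nat.gcd a (f ^ 2) ∣ f ^ 2 := Nat.gcd_dvd_right _ _
    refine Finset.mem_biUnion.mpr ⟨Nat.gcd a (f ^ 2), Nat.mem_divisors.mpr ⟨hg, hf2.ne'⟩, ?_⟩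
    refine Finset.mem_filter.mpr ⟨hn, ?_, ?_⟩
    · have := Nat.gcd_dvd_left a (f ^ 2)
      exact Int.natCast_dvd.mpr this
    · obtain ⟨l, k, hlk, hl, hk⟩ := Nat.exists_coprime a (f ^ 2)
      set g := Nat.gcd a (f ^ 2) with hg'
      have hg0 : 0 < g := Nat.pos_of_dvd_of_pos hg hf2
      have hdiv : f ^ 2 / g = k := by
        rw [hk]; exact Nat.mul_div_cancel _ hg0
      rw [hdiv]
      have h6 : k * g ∣ (l * (n + n0)) * g := by
        rw [hk, hl] at h4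
        convert h4 using 1
        ring
      have h7 : k ∣ l * (n + n0) := Nat.dvd_of_mul_dvd_mul_right hg0 h6
      have h8 : k ∣ n + n0 := (Nat.Coprime.symm hlk).dvd_of_dvd_mul_left h7
      exact_mod_cast h8
  refine (Finset.card_le_card hsub).trans ?_
  apply Finset.card_biUnion_le_card_mul
  intro g hg
  obtain ⟨hgd, -⟩ := Nat.mem_divisors.mp hg
  obtain ⟨k, hk⟩ := hgd
  have hf2 : 0 < f ^ 2 := by positivity
  have hg0 : 0 < g := by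
    rcases Nat.eq_zero_or_pos g with h | h
    · rw [h, zero_mul] at hk; omega
    · exact h
  have hB : ∀ n ∈ S.filter (fun n : ℕ =>
      (g : ℤ) ∣ (n : ℤ) - n0 ∧ ((f ^ 2 / g : ℕ) : ℤ) ∣ (n : ℤ) + n0), n ≤ B := by
    intro n hn
    have := Finset.mem_range.mp (Finset.mem_filter.mp (Finset.mem_filter.mp hn).1).1
    omega
  rcases le_or_gt f g with hfg | hfg
  · refine (cls_card B g _ hB ?_).trans (Nat.add_le_add_right (Nat.div_le_div_left hfg hf) 1)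
    intro n hn n' hn'
    have h1 := (Finset.mem_filter.mp hn).2.1
    have h2 := (Finset.mem_filter.mp hn').2.1
    have e : (n : ℤ) - n' = ((n : ℤ) - n0) - ((n' : ℤ) - n0) := by ring
    rw [e]
    exact dvd_sub h1 h2
  · have hkf : f ≤ f ^ 2 / g := by
      rw [Nat.le_div_iff_mul_le hg0]
      nlinarith
    refine (cls_card B (f ^ 2 / g) _ hB ?_).trans
      (Nat.add_le_add_right (Nat.div_le_div_left hkf hf) 1)
    intro n hn n' hn'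
    have h1 := (Finset.mem_filter.mp hn).2.2
    have h2 := (Finset.mem_filter.mp hn').2.2
    have e : (n : ℤ) - n' = ((n : ℤ) + n0) - ((n' : ℤ) + n0) := by ring
    rw [e]
    exact dvd_sub h1 h2

lemma R3_count (Y A B : ℕ) (hA : A = Nat.sqrt Y) (hB : B = Nat.sqrt (4 * A ^ 3)) :
    ∑ d ∈ Icc 1 Y, R3 d ≤ ∑ _r ∈ range (A + 1), ∑ f ∈ Icc 1 B,
      (f ^ 2).divisors.card * (B / f + 1) := by
  classical
  have h1 : ∑ d ∈ Icc 1 Y, R3 d = ((Icc 1 Y).sigma (fun d =>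
    (range (d + 1) ×ˢ range (4 * d ^ 3 + 1) ×ˢ range (4 * d ^ 3 + 1)).filter
    (fun z : ℕ × ℕ × ℕ => z.1 ^ 2 ≤ d ∧ 1 ≤ z.2.2 ∧
      z.2.1 ^ 2 + d * z.2.2 ^ 2 = 4 * z.1 ^ 3))).card := by
    rw [Finset.card_sigma]; rfl
  have h2 : ((range (A + 1) ×ˢ Icc 1 B).sigma (fun p : ℕ × ℕ =>
      (range (B + 1)).filter (fun n : ℕ => (p.2 : ℤ) ^ 2 ∣ 4 * (p.1 : ℤ) ^ 3 - (n : ℤ) ^ 2))).card
      ≤ ∑ _r ∈ range (A + 1), ∑ f ∈ Icc 1 B, (f ^ 2).divisors.card * (B / f + 1) := by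
    rw [Finset.card_sigma, Finset.sum_product]
    apply Finset.sum_le_sum
    intro r _
    apply Finset.sum_le_sum
    intro f hf
    exact sq_cong B f (Finset.mem_Icc.mp hf).1 _
  rw [h1]
  refine le_trans ?_ h2
  apply Finset.card_le_card_of_injOn
    (fun z : (_ : ℕ) × (ℕ × ℕ × ℕ) =>
      (⟨(z.2.1, z.2.2.2), z.2.2.1⟩ : (_ : ℕ × ℕ) × ℕ))
  · rintro ⟨d, r, n, f⟩ hz
    simp only [coe_sigma, coe_Icc, Set.mem_sigma_iff, Set.mem_Icc, mem_coe, Finset.mem_filter,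
      Finset.mem_product, Finset.mem_range] at hz
    obtain ⟨⟨hd1, hdY⟩, -, hrd, hf1, heq⟩ := hz
    have hrA : r ≤ A := by
      rw [hA, Nat.le_sqrt']; exact hrd.trans hdY
    have hr3 : r ^ 3 ≤ A ^ 3 := Nat.pow_le_pow_left hrA 3
    have hnB : n ≤ B := by
      rw [hB, Nat.le_sqrt']; nlinarith
    have hfB : f ≤ B := by
      rw [hB, Nat.le_sqrt']
      have : 1 * f ^ 2 ≤ d * f ^ 2 := Nat.mul_le_mul_right _ hd1
      nlinarith
    simp only [coe_sigma, Set.mem_sigma_iff, mem_coe, Finset.mem_filter,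
      Finset.mem_product, Finset.mem_range, Finset.mem_Icc]
    refine ⟨⟨by omega, hf1, hfB⟩, by omega, ⟨(d : ℤ), ?_⟩⟩
    have : (n : ℤ) ^ 2 + d * (f : ℤ) ^ 2 = 4 * (r : ℤ) ^ 3 := by exact_mod_cast heq
    linear_combination -this
  · rintro ⟨d, r, n, f⟩ hz ⟨d', r', n', f'⟩ hz' heq
    simp only [coe_sigma, coe_Icc, Set.mem_sigma_iff, Set.mem_Icc, mem_coe, Finset.mem_filter,
      Finset.mem_product, Finset.mem_range] at hz hz'
    simp only [Sigma.mk.injEq, Prod.mk.injEq, heq_eq_eq] at heq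
    obtain ⟨⟨rfl, rfl⟩, rfl⟩ := heq
    obtain ⟨⟨hd1, hdY⟩, -, hrd, hf1, h5⟩ := hz
    obtain ⟨⟨hd1', hdY'⟩, -, hrd', hf1', h5'⟩ := hz'
    have : d * f ^ 2 = d' * f ^ 2 := by omega
    have hf2 : 0 < f ^ 2 := by positivity
    have := Nat.eq_of_mul_eq_mul_right hf2 this
    subst this
    rfl

theorem t_R3 : S_R3 := by
  intro ε hε
  set δ : ℝ := ε / 3 with hδ
  have hδ0 : 0 < δ := by positivity
  obtain ⟨C1, hC1, hdiv⟩ := Pool.Agent.H510R2.divisor_bound δ hδ0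
  refine ⟨2 * C1 * (2 + 1 / δ) * 2 ^ (1 + 3 * δ), by positivity, ?_⟩
  intro Y hY
  set A := Nat.sqrt Y with hA
  set B := Nat.sqrt (4 * A ^ 3) with hB
  have h1 := R3_count Y A B hA hB
  have hA1 : 1 ≤ A := by
    rw [hA, Nat.le_sqrt']; simpa using hY
  have hB1 : 1 ≤ B := by
    rw [hB, Nat.le_sqrt']
    have : 1 ≤ A ^ 3 := Nat.one_le_pow _ _ hA1
    omega
  have hY1 : (1 : ℝ) ≤ Y := by exact_mod_cast hY
  have hY0 : (0 : ℝ) < Y := by linarith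
  have hAY : (A : ℝ) ≤ (Y : ℝ) ^ (1 / 2 : ℝ) := by
    rw [← Real.sqrt_eq_rpow]
    apply Real.le_sqrt_of_sq_le
    have : A ^ 2 ≤ Y := Nat.sqrt_le' Y
    exact_mod_cast this
  have hA1' : (1 : ℝ) ≤ A := by exact_mod_cast hA1
  have hB1' : (1 : ℝ) ≤ B := by exact_mod_cast hB1
  have hB0' : (0 : ℝ) < B := by linarith
  have hBY : (B : ℝ) ≤ 2 * (Y : ℝ) ^ (3 / 4 : ℝ) := by
    have h2 : (B : ℝ) ^ 2 ≤ (2 * (Y : ℝ) ^ (3 / 4 : ℝ)) ^ 2 := by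
      have h3 : B ^ 2 ≤ 4 * A ^ 3 := Nat.sqrt_le' _
      have h4 : (B : ℝ) ^ 2 ≤ 4 * (A : ℝ) ^ 3 := by exact_mod_cast h3
      have h5 : (A : ℝ) ^ 3 ≤ ((Y : ℝ) ^ (1 / 2 : ℝ)) ^ 3 := by gcongr
      have h6 : ((Y : ℝ) ^ (1 / 2 : ℝ)) ^ 3 = ((Y : ℝ) ^ (3 / 4 : ℝ)) ^ 2 := by
        rw [← Real.rpow_natCast, ← Real.rpow_natCast, ← Real.rpow_mul hY0.le,
          ← Real.rpow_mul hY0.le]
        norm_num
      rw [mul_pow, ← h6]
      nlinarith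
    exact le_of_sq_le_sq h2 (by positivity)
  -- the harmonic sum
  have hH : ∑ f ∈ Icc 1 B, ((f : ℝ))⁻¹ ≤ 1 + (B : ℝ) ^ δ / δ := by
    have h2 := harmonic_le_one_add_log B
    rw [harmonic_eq_sum_Icc] at h2
    push_cast at h2
    have h3 := Real.log_le_rpow_div hB0'.le hδ0
    linarith
  have h2 : (∑ d ∈ Icc 1 Y, (R3 d : ℝ)) ≤ ∑ _r ∈ range (A + 1), ∑ f ∈ Icc 1 B,
      C1 * (B : ℝ) ^ (2 * δ) * ((B : ℝ) * (f : ℝ)⁻¹ + 1) := by
    have h3 : (∑ d ∈ Icc 1 Y, (R3 d : ℝ)) ≤ ((∑ _r ∈ range (A + 1), ∑ f ∈ Icc 1 B,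
      (f ^ 2).divisors.card * (B / f + 1) : ℕ) : ℝ) := by
      exact_mod_cast h1
    refine h3.trans ?_
    push_cast
    apply Finset.sum_le_sum
    intro r _
    apply Finset.sum_le_sum
    intro f hf
    obtain ⟨hf1, hfB⟩ := Finset.mem_Icc.mp hf
    have hf0 : (0 : ℝ) < f := by exact_mod_cast hf1
    have h4 : ((f ^ 2).divisors.card : ℝ) ≤ C1 * (B : ℝ) ^ (2 * δ) := by
      have h5 := hdiv (f ^ 2) (Nat.one_le_pow _ _ hf1)
      refine h5.trans ?_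
      apply mul_le_mul_of_nonneg_left _ hC1.le
      push_cast
      rw [← Real.rpow_natCast, ← Real.rpow_mul hf0.le]
      push_cast
      apply Real.rpow_le_rpow hf0.le (by exact_mod_cast hfB) (by positivity)
    have h5 : ((B / f : ℕ) : ℝ) ≤ (B : ℝ) * (f : ℝ)⁻¹ := by
      rw [← div_eq_mul_inv]
      exact Nat.cast_div_le
    apply mul_le_mul h4 (by linarith) (by positivity) (by positivity)
  refine h2.trans ?_
  rw [Finset.sum_const, Finset.card_range, nsmul_eq_mul, ← Finset.mul_sum, Finset.sum_add_distrib,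
    ← Finset.mul_sum]
  simp only [Finset.sum_const, Nat.card_Icc, Nat.add_sub_cancel, nsmul_eq_mul, mul_one]
  have hBδ : (1 : ℝ) ≤ (B : ℝ) ^ δ := Real.one_le_rpow hB1' hδ0.le
  have h6 : (B : ℝ) * ∑ f ∈ Icc 1 B, ((f : ℝ))⁻¹ + B ≤ (B : ℝ) * ((2 + 1 / δ) * (B : ℝ) ^ δ) := by
    have h7 : (B : ℝ) * ∑ f ∈ Icc 1 B, ((f : ℝ))⁻¹ ≤ (B : ℝ) * (1 + (B : ℝ) ^ δ / δ) :=
      mul_le_mul_of_nonneg_left hH hB0'.le
    have h8 : (B : ℝ) * (1 + (B : ℝ) ^ δ / δ) + B ≤ (B : ℝ) * ((2 + 1 / δ) * (B : ℝ) ^ δ) := by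
      have : 1 + (B : ℝ) ^ δ / δ + 1 ≤ (2 + 1 / δ) * (B : ℝ) ^ δ := by
        have h9 : (2 + 1 / δ) * (B : ℝ) ^ δ = 2 * (B : ℝ) ^ δ + (B : ℝ) ^ δ / δ := by ring
        rw [h9]; linarith
      nlinarith
    linarith
  have h7 : (((A + 1 : ℕ) : ℝ)) ≤ 2 * (Y : ℝ) ^ (1 / 2 : ℝ) := by
    push_cast; linarith
  calc ((A + 1 : ℕ) : ℝ) * (C1 * (B : ℝ) ^ (2 * δ) *
        ((B : ℝ) * ∑ f ∈ Icc 1 B, ((f : ℝ))⁻¹ + B))
      ≤ (2 * (Y : ℝ) ^ (1 / 2 : ℝ)) * (C1 * (B : ℝ) ^ (2 * δ) *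
        ((B : ℝ) * ((2 + 1 / δ) * (B : ℝ) ^ δ))) := by
        apply mul_le_mul h7 _ (by positivity) (by positivity)
        apply mul_le_mul_of_nonneg_left h6 (by positivity)
    _ = 2 * C1 * (2 + 1 / δ) * (Y : ℝ) ^ (1 / 2 : ℝ) * (B : ℝ) ^ (1 + 3 * δ) := by
        have h8 : (B : ℝ) ^ (1 + 3 * δ) = (B : ℝ) ^ (2 * δ) * B * (B : ℝ) ^ δ := by
          have : (1 + 3 * δ) = 2 * δ + 1 + δ := by ring
          rw [this, Real.rpow_add hB0', Real.rpow_add hB0', Real.rpow_one]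
        rw [h8]; ring
    _ ≤ 2 * C1 * (2 + 1 / δ) * (Y : ℝ) ^ (1 / 2 : ℝ) *
        (2 ^ (1 + 3 * δ) * (Y : ℝ) ^ (3 / 4 + ε : ℝ)) := by
        apply mul_le_mul_of_nonneg_left _ (by positivity)
        calc (B : ℝ) ^ (1 + 3 * δ) ≤ (2 * (Y : ℝ) ^ (3 / 4 : ℝ)) ^ (1 + 3 * δ) :=
              Real.rpow_le_rpow hB0'.le hBY (by positivity)
          _ = 2 ^ (1 + 3 * δ) * (Y : ℝ) ^ (3 / 4 * (1 + 3 * δ)) := by
              rw [Real.mul_rpow (by norm_num) (by positivity), ← Real.rpow_mul hY0.le]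
          _ ≤ 2 ^ (1 + 3 * δ) * (Y : ℝ) ^ (3 / 4 + ε : ℝ) := by
              apply mul_le_mul_of_nonneg_left _ (by positivity)
              apply Real.rpow_le_rpow_of_exponent_le hY1
              rw [hδ]; linarith
    _ = 2 * C1 * (2 + 1 / δ) * 2 ^ (1 + 3 * δ) * (Y : ℝ) ^ (5 / 4 + ε : ℝ) := by
        have h8 : (Y : ℝ) ^ (5 / 4 + ε : ℝ) = (Y : ℝ) ^ (1 / 2 : ℝ) * (Y : ℝ) ^ (3 / 4 + ε : ℝ) := by
          rw [← Real.rpow_add hY0]; congr 1; ring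
        rw [h8]; ring

end Pool.Agent.H4.C3
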