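import Pool.Agent.H82.C3.Stm

/-!
Part SV1 of project C3: the sieve for the primes up to `T³ / 1000`.
-/

set_option autoImplicit false

namespace Pool.Agent.H4.C3

open Finset Pool.Agent.H82.C3

/-- one prime -/
lemma per_q (hLIN : S_LIN) (hLIX : S_LIX) (hEXC : S_EXC) (W T q : ℕ) (hq : q.Prime) (hq5 : 5 ≤ q)
    (hqW : ¬ q ∣ 2 * W) :
    ((dat T).filter (fun z => (q : ℤ) ^ 2 ∣ DV W T z)).card ≤
      T ^ 2 * (4 * T ^ 3 * (T ^ 3 / q ^ 2 + 1) + 6 * (T ^ 3 / q + 1) ^ 2) +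
        3 * T * (T / q + 1) * (4 * T ^ 3 * (T ^ 3 / q + 1)) := by
  classical
  set x₀ : ℤ := 16000000 * W ^ 3 * T ^ 3 + W with hx₀
  set N := T ^ 3 with hN
  set F : ℕ × ℕ → Finset (ℕ × ℕ) := fun p =>
    (range N ×ˢ range N).filter (fun z : ℕ × ℕ => (q : ℤ) ^ 2 ∣
      DD (mm (ea W T p.1) (eb W T p.2) (x₀ + 2 * W * z.1) (2 + 2 * W * z.2))
        (nn (ea W T p.1) (eb W T p.2) (x₀ + 2 * W * z.1) (2 + 2 * W * z.2))) with hF
  have h1 : ((dat T).filter (fun z => (q : ℤ) ^ 2 ∣ DV W T z)).card ≤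
      ((range T ×ˢ range T).sigma F).card := by
    apply Finset.card_le_card_of_injOn
      (fun z : ℕ × ℕ × ℕ × ℕ => (⟨(z.1, z.2.1), (z.2.2.1, z.2.2.2)⟩ : (_ : ℕ × ℕ) × (ℕ × ℕ)))
    · rintro ⟨i, j, k, l⟩ hz
      simp only [dat, mem_coe, Finset.mem_filter, Finset.mem_product, Finset.mem_range] at hz
      obtain ⟨⟨hi, hj, hk, hl⟩, hd⟩ := hz
      simp only [coe_sigma, Set.mem_sigma_iff, mem_coe, Finset.mem_filter,
        Finset.mem_product, Finset.mem_range, hF]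
      exact ⟨⟨hi, hj⟩, ⟨hk, hl⟩, hd⟩
    · rintro ⟨i, j, k, l⟩ _ ⟨i', j', k', l'⟩ _ heq
      simp only [Sigma.mk.injEq, Prod.mk.injEq, heq_eq_eq] at heq
      obtain ⟨⟨rfl, rfl⟩, rfl, rfl⟩ := heq
      rfl
  refine h1.trans ?_
  rw [Finset.card_sigma]
  set P : ℕ × ℕ → Prop := fun z => (q : ℤ) ∣ pp (ea W T z.1) (eb W T z.2) ∨
      (q : ℤ) ∣ ea W T z.1 + 2 * eb W T z.2 with hP
  rw [← Finset.sum_filter_add_sum_filter_not (range T ×ˢ range T) P, add_comm]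
  apply Nat.add_le_add
  · refine (Finset.sum_le_card_nsmul _ _ (4 * N * (N / q ^ 2 + 1) + 6 * (N / q + 1) ^ 2) ?_).trans ?_
    · intro p hp
      have hp2 := (Finset.mem_filter.mp hp).2
      simp only [hP, not_or] at hp2
      exact hLIN q W hq hq5 hqW (ea W T p.1) (eb W T p.2) x₀ 2 hp2.1 hp2.2 N
    · rw [smul_eq_mul]
      apply Nat.mul_le_mul_right
      refine (Finset.card_filter_le _ _).trans ?_
      rw [Finset.card_product, Finset.card_range, sq]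
  · refine (Finset.sum_le_card_nsmul _ _ (4 * N * (N / q + 1)) ?_).trans ?_
    · intro p hp
      refine le_trans (Finset.card_le_card ?_)
        (hLIX q W hq hqW (ea W T p.1) (eb W T p.2) x₀ 2 N)
      intro z hz
      simp only [hF, Finset.mem_filter] at hz ⊢
      exact ⟨hz.1, (Dvd.intro_left _ (by ring : (q : ℤ) * q = (q : ℤ) ^ 2)).trans hz.2⟩
    · rw [smul_eq_mul]
      apply Nat.mul_le_mul_right
      exact hEXC q W T hq hqW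

lemma sum_inv_sq (M : ℕ) : ∑ q ∈ Icc 1001 M, ((q : ℝ) ^ 2)⁻¹ ≤ 1 / 1000 := by
  have h : ∀ M : ℕ, 1000 ≤ M → ∑ q ∈ Icc 1001 M, ((q : ℝ) ^ 2)⁻¹ ≤ 1 / 1000 - 1 / (M : ℝ) := by
    intro M hM
    induction M, hM using Nat.le_induction with
    | base => norm_num
    | succ m hm ih =>
      rw [← Finset.insert_Icc_right_eq_Icc_add_one (by omega),
        Finset.sum_insert (by simp)]
      have hm0 : (0 : ℝ) < m := by exact_mod_cast (by omega : 0 < m)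
      have h2 : (((m + 1 : ℕ) : ℝ) ^ 2)⁻¹ ≤ 1 / (m : ℝ) - 1 / ((m + 1 : ℕ) : ℝ) := by
        push_cast
        rw [div_sub_div _ _ hm0.ne' (by positivity), inv_eq_one_div,
          div_le_div_iff₀ (by positivity) (by positivity)]
        nlinarith
      linarith
  rcases le_or_gt 1000 M with hM | hM
  · have := h M hM
    have h0 : (0 : ℝ) ≤ 1 / (M : ℝ) := by positivity
    linarith
  · rw [Finset.Icc_eq_empty (by omega)]
    norm_num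

lemma sum_inv (T M : ℕ) (hT : 1 ≤ T) (hM : M ≤ T ^ 3) :
    ∑ q ∈ Icc 1001 M, ((q : ℝ))⁻¹ ≤ 1 + 6 * Real.sqrt T := by
  have h1 : ∑ q ∈ Icc 1001 M, ((q : ℝ))⁻¹ ≤ ∑ q ∈ Icc 1 (T ^ 3), ((q : ℝ))⁻¹ := by
    apply Finset.sum_le_sum_of_subset_of_nonneg
    · intro q hq
      obtain ⟨a, b⟩ := Finset.mem_Icc.mp hq
      exact Finset.mem_Icc.mpr ⟨by omega, by omega⟩
    · intro q _ _
      positivity
  have h2 := harmonic_le_one_add_log (T ^ 3)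
  rw [harmonic_eq_sum_Icc] at h2
  push_cast at h2
  have hT1 : (1 : ℝ) ≤ T := by exact_mod_cast hT
  have h3 : Real.log ((T : ℝ) ^ 3) ≤ 6 * Real.sqrt T := by
    have h4 := Real.log_le_rpow_div (x := (T : ℝ)) (by positivity) (by norm_num : (0 : ℝ) < 1 / 2)
    rw [← Real.sqrt_eq_rpow] at h4
    rw [Real.log_pow]
    push_cast
    linarith
  linarith

lemma numeric (T N L s : ℝ) (hT : (10 : ℝ) ^ 7 ≤ T) (hN : N = T ^ 3) (hs : 0 ≤ s) (hs2 : s ^ 2 = T)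
    (hL : L = 1 + 6 * s) :
    T ^ 2 * (10 * N ^ 2 * (1 / 1000) + 12 * N * L + (4 * N + 6) * (N / 1000)) +
      12 * T * N * (T * N * (1 / 1000) + (T + N) * L + N / 1000) ≤ T ^ 8 / 2 := by
  have hT0 : (0 : ℝ) < T := by linarith [show (0 : ℝ) < 10 ^ 7 by norm_num]
  have hT1 : (1 : ℝ) ≤ T := by linarith [show (1 : ℝ) < 10 ^ 7 by norm_num]
  have hNT : T ≤ N := by
    rw [hN]; nlinarith [mul_self_nonneg T, mul_pos hT0 hT0]
  have hN0 : 0 < N := by linarith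
  have hs3 : (3000 : ℝ) ≤ s := by
    nlinarith
  have hLT : 360 * L ≤ T := by
    rw [hL, ← hs2]; nlinarith
  have hL0 : 0 ≤ L := by rw [hL]; linarith
  have h8 : T ^ 8 = T ^ 2 * N ^ 2 := by rw [hN]; ring
  rw [h8]
  have e1 : 12 * N * L ≤ N * N / 30 := by nlinarith
  have e2 : (4 * N + 6) * (N / 1000) ≤ 10 * N * N / 1000 := by
    have : (6 : ℝ) ≤ 6 * N := by linarith
    nlinarith
  have e3 : 12 * T * N * (T * N * (1 / 1000) + (T + N) * L + N / 1000) ≤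
      T ^ 2 * (N ^ 2 * (12 / 1000) + N ^ 2 / 15 + 12 * N ^ 2 / 1000) := by
    have a1 : (T + N) * L ≤ (2 * N) * (T / 360) := by
      apply mul_le_mul (by linarith) (by linarith) hL0 (by linarith)
    have a2 : N / 1000 ≤ T * N / 1000 := by nlinarith
    have a3 : 12 * T * N * (T * N * (1 / 1000) + (T + N) * L + N / 1000) ≤
        12 * T * N * (T * N * (1 / 1000) + (2 * N) * (T / 360) + T * N / 1000) := by
      apply mul_le_mul_of_nonneg_left _ (by positivity)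
      linarith
    refine a3.trans (le_of_eq ?_)
    ring
  have e4 : T ^ 2 * (10 * N ^ 2 * (1 / 1000) + 12 * N * L + (4 * N + 6) * (N / 1000)) ≤
      T ^ 2 * (10 * N ^ 2 * (1 / 1000) + N * N / 30 + 10 * N * N / 1000) := by
    apply mul_le_mul_of_nonneg_left _ (by positivity)
    linarith
  have e5 : 0 ≤ T ^ 2 * N ^ 2 := by positivity
  nlinarith

set_option maxRecDepth 20000 in
theorem t_SV1 (hLIN : S_LIN) (hLIX : S_LIX) (hEXC : S_EXC) : S_SV1 := by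
  classical
  intro W hW hWq
  refine ⟨10 ^ 7, ?_⟩
  intro T hT'
  have hT7 : (10 : ℝ) ^ 7 ≤ T := by exact_mod_cast hT'
  have hT1 : 1 ≤ T := le_trans (by norm_num) hT'
  clear hT'
  set M := T ^ 3 / 1000 with hM
  set Q := (Icc 1001 M).filter Nat.Prime with hQ
  have hsub : (dat T).filter (fun z => ∃ q : ℕ, q.Prime ∧ 1000 < q ∧ 1000 * q ≤ T ^ 3 ∧
      (q : ℤ) ^ 2 ∣ DV W T z) ⊆ Q.biUnion (fun q => (dat T).filter
        (fun z => (q : ℤ) ^ 2 ∣ DV W T z)) := by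
    intro z hz
    obtain ⟨hz1, q, hq, hq1, hq2, hd⟩ := Finset.mem_filter.mp hz
    refine Finset.mem_biUnion.mpr ⟨q, ?_, Finset.mem_filter.mpr ⟨hz1, hd⟩⟩
    refine Finset.mem_filter.mpr ⟨Finset.mem_Icc.mpr ⟨by omega, ?_⟩, hq⟩
    rw [hM]; omega
  have h1 := (Finset.card_le_card hsub).trans Finset.card_biUnion_le
  have h2 : ∀ q ∈ Q, ((dat T).filter (fun z => (q : ℤ) ^ 2 ∣ DV W T z)).card ≤
      T ^ 2 * (4 * T ^ 3 * (T ^ 3 / q ^ 2 + 1) + 6 * (T ^ 3 / q + 1) ^ 2) +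
        3 * T * (T / q + 1) * (4 * T ^ 3 * (T ^ 3 / q + 1)) := by
    intro q hq
    obtain ⟨hq1, hqp⟩ := Finset.mem_filter.mp hq
    obtain ⟨hq2, hq3⟩ := Finset.mem_Icc.mp hq1
    apply per_q hLIN hLIX hEXC W T q hqp (by omega)
    intro hdvd
    rcases (Nat.Prime.dvd_mul hqp).mp hdvd with h | h
    · have := Nat.le_of_dvd (by norm_num) h
      omega
    · have := ((hWq q hqp).mp h).2
      omega
  have h3 := h1.trans (Finset.sum_le_sum h2)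
  set X := ((dat T).filter (fun z => ∃ q : ℕ, q.Prime ∧ 1000 < q ∧ 1000 * q ≤ T ^ 3 ∧
      (q : ℤ) ^ 2 ∣ DV W T z)).card with hX
  -- to the reals
  have hT0 : (0 : ℝ) < T := by linarith [show (0 : ℝ) < 10 ^ 7 by norm_num]
  set N : ℝ := (T : ℝ) ^ 3 with hN
  have hN0 : 0 < N := by positivity
  have hMN : (M : ℝ) ≤ N / 1000 := by
    have : ((T ^ 3 / 1000 : ℕ) : ℝ) ≤ ((T ^ 3 : ℕ) : ℝ) / ((1000 : ℕ) : ℝ) := Nat.cast_div_le
    rw [hM, hN]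
    push_cast at this ⊢
    exact this
  have h4 : (X : ℝ) ≤ ∑ q ∈ Icc 1001 M,
      (T ^ 2 * (10 * N ^ 2 * ((q : ℝ) ^ 2)⁻¹ + 12 * N * (q : ℝ)⁻¹ + (4 * N + 6)) +
        12 * T * N * (T * N * ((q : ℝ) ^ 2)⁻¹ + (T + N) * (q : ℝ)⁻¹ + 1)) := by
    have h5 : (X : ℝ) ≤ ((∑ q ∈ Q, (T ^ 2 * (4 * T ^ 3 * (T ^ 3 / q ^ 2 + 1) +
        6 * (T ^ 3 / q + 1) ^ 2) +
        3 * T * (T / q + 1) * (4 * T ^ 3 * (T ^ 3 / q + 1))) : ℕ) : ℝ) := by
      exact_mod_cast h3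
    refine h5.trans ?_
    push_cast
    refine le_trans (Finset.sum_le_sum (g := fun q : ℕ =>
      (T : ℝ) ^ 2 * (10 * N ^ 2 * ((q : ℝ) ^ 2)⁻¹ + 12 * N * (q : ℝ)⁻¹ + (4 * N + 6)) +
        12 * T * N * (T * N * ((q : ℝ) ^ 2)⁻¹ + (T + N) * (q : ℝ)⁻¹ + 1)) ?_) ?_
    · intro q hq
      obtain ⟨hq1, hqp⟩ := Finset.mem_filter.mp hq
      have hq0 : (0 : ℝ) < q := by exact_mod_cast hqp.pos
      have b1 : ((T ^ 3 / q ^ 2 : ℕ) : ℝ) ≤ N * ((q : ℝ) ^ 2)⁻¹ := by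
        rw [← div_eq_mul_inv]
        have := @Nat.cast_div_le ℝ _ _ _ (T ^ 3) (q ^ 2)
        push_cast at this ⊢
        exact this
      have b2 : ((T ^ 3 / q : ℕ) : ℝ) ≤ N * (q : ℝ)⁻¹ := by
        rw [← div_eq_mul_inv]
        have := @Nat.cast_div_le ℝ _ _ _ (T ^ 3) q
        push_cast at this ⊢
        exact this
      have b3 : ((T / q : ℕ) : ℝ) ≤ T * (q : ℝ)⁻¹ := by
        rw [← div_eq_mul_inv]
        exact Nat.cast_div_le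
      have b4 : (0 : ℝ) ≤ ((T ^ 3 / q : ℕ) : ℝ) := by positivity
      have b5 : (0 : ℝ) ≤ ((T / q : ℕ) : ℝ) := by positivity
      have hinv : (q : ℝ)⁻¹ * (q : ℝ)⁻¹ = ((q : ℝ) ^ 2)⁻¹ := by
        rw [sq, mul_inv]
      calc (T : ℝ) ^ 2 * (4 * (T : ℝ) ^ 3 * (((T ^ 3 / q ^ 2 : ℕ) : ℝ) + 1) +
            6 * (((T ^ 3 / q : ℕ) : ℝ) + 1) ^ 2) +
            3 * (T : ℝ) * (((T / q : ℕ) : ℝ) + 1) *
              (4 * (T : ℝ) ^ 3 * (((T ^ 3 / q : ℕ) : ℝ) + 1))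
          ≤ (T : ℝ) ^ 2 * (4 * N * (N * ((q : ℝ) ^ 2)⁻¹ + 1) + 6 * (N * (q : ℝ)⁻¹ + 1) ^ 2) +
            3 * (T : ℝ) * (T * (q : ℝ)⁻¹ + 1) * (4 * N * (N * (q : ℝ)⁻¹ + 1)) := by
            rw [← hN]
            gcongr
        _ = (T : ℝ) ^ 2 * (10 * N ^ 2 * ((q : ℝ) ^ 2)⁻¹ + 12 * N * (q : ℝ)⁻¹ + (4 * N + 6)) +
            12 * T * N * (T * N * ((q : ℝ) ^ 2)⁻¹ + (T + N) * (q : ℝ)⁻¹ + 1) := by
            rw [← hinv]; ring
    · apply Finset.sum_le_sum_of_subset_of_nonneg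
      · exact Finset.filter_subset _ _
      · intro q _ _
        positivity
  have h5 : ∑ q ∈ Icc 1001 M,
      (T ^ 2 * (10 * N ^ 2 * ((q : ℝ) ^ 2)⁻¹ + 12 * N * (q : ℝ)⁻¹ + (4 * N + 6)) +
        12 * T * N * (T * N * ((q : ℝ) ^ 2)⁻¹ + (T + N) * (q : ℝ)⁻¹ + 1)) =
      T ^ 2 * (10 * N ^ 2 * (∑ q ∈ Icc 1001 M, ((q : ℝ) ^ 2)⁻¹) +
        12 * N * (∑ q ∈ Icc 1001 M, (q : ℝ)⁻¹) + (4 * N + 6) * ((Icc 1001 M).card : ℝ)) +
        12 * T * N * (T * N * (∑ q ∈ Icc 1001 M, ((q : ℝ) ^ 2)⁻¹) +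
          (T + N) * (∑ q ∈ Icc 1001 M, (q : ℝ)⁻¹) + ((Icc 1001 M).card : ℝ)) := by
    rw [Finset.sum_add_distrib, ← Finset.mul_sum, ← Finset.mul_sum]
    simp only [Finset.sum_add_distrib, ← Finset.mul_sum, Finset.sum_const, nsmul_eq_mul]
    ring
  rw [h5] at h4
  have s2 := sum_inv_sq M
  have s1 := sum_inv T M hT1 (Nat.div_le_self _ _)
  have s0 : ((Icc 1001 M).card : ℝ) ≤ N / 1000 := by
    rw [Nat.card_Icc]
    have : ((M + 1 - 1001 : ℕ) : ℝ) ≤ M := by exact_mod_cast (by omega : M + 1 - 1001 ≤ M)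
    linarith
  have h6 := numeric T N (1 + 6 * Real.sqrt T) (Real.sqrt T) hT7 hN (Real.sqrt_nonneg _)
    (Real.sq_sqrt hT0.le) rfl
  have h7 : T ^ 2 * (10 * N ^ 2 * (∑ q ∈ Icc 1001 M, ((q : ℝ) ^ 2)⁻¹) +
        12 * N * (∑ q ∈ Icc 1001 M, (q : ℝ)⁻¹) + (4 * N + 6) * ((Icc 1001 M).card : ℝ)) +
        12 * T * N * (T * N * (∑ q ∈ Icc 1001 M, ((q : ℝ) ^ 2)⁻¹) +
          (T + N) * (∑ q ∈ Icc 1001 M, (q : ℝ)⁻¹) + ((Icc 1001 M).card : ℝ)) ≤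
      (T : ℝ) ^ 2 * (10 * N ^ 2 * (1 / 1000) + 12 * N * (1 + 6 * Real.sqrt T) +
        (4 * N + 6) * (N / 1000)) +
      12 * T * N * (T * N * (1 / 1000) + (T + N) * (1 + 6 * Real.sqrt T) + N / 1000) := by
    gcongr
  have h8 : (2 : ℝ) * X ≤ (T : ℝ) ^ 8 := by linarith
  exact_mod_cast h8

end Pool.Agent.H4.C3
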